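import Mathlib
import Pool.Agent.TH994.LR.Inf

/-!
# Long range percolation under an isoperimetric inequality slightly above logarithmic

A generating measure `μ` on a countable group with
`|∂S| ≥ c (1 + log |S|) (1 + log (1 + log |S|)) ^ (2 + ε)` for all finite nonempty sets `S` has a
finite critical parameter; in particular every generating measure of isoperimetric dimension larger
than one. More generally, on every countable weighted graph (no group, no symmetry) with
`|∂S| ≥ ψ r` for `|S| ≥ 2 ^ r` and `∑ log (1 + ψ r) / ψ r < ∞`, for all large intensities every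
vertex is in an infinite cluster with positive probability.
-/

set_option autoImplicit false

open MeasureTheory ProbabilityTheory
open scoped ENNReal NNReal

namespace Pool.Agent.Results.MP_7c03a7_pr.LogLogIsoperimetry

/-! ### Definitions used in the statement -/

/-- The unordered pairs `{x, y}` of distinct elements of `V`. -/
abbrev Pair (V : Type*) : Type _ := {e : Sym2 V // ¬ e.IsDiag}

/-- The law of the random multigraph on `V` with weights `w` and intensity `t`: the multiplicities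
of the pairs are independent, and the multiplicity of `{x, y}` is Poisson with mean `t w {x, y}`. -/
noncomputable def law {V : Type*} (w : Sym2 V → ℝ≥0) (t : ℝ≥0) : Measure (Pair V → ℕ) :=
  Measure.infinitePi fun e : Pair V => poissonMeasure (t * w e)

/-- The graph obtained from the multiplicities `ω` by merging parallel edges: two distinct elements
are joined when the multiplicity of the pair is positive. -/
def openGraph {V : Type*} (ω : Pair V → ℕ) : SimpleGraph V where
  Adj x y := ∃ hne : ¬ (s(x, y)).IsDiag, 0 < ω ⟨s(x, y), hne⟩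
  symm := ⟨fun x y hxy => by
    obtain ⟨hne, hω⟩ := hxy
    have e : (s(y, x) : Sym2 V) = s(x, y) := Sym2.eq_swap
    refine ⟨by rwa [e], ?_⟩
    have : (⟨s(y, x), by rwa [e]⟩ : Pair V) = ⟨s(x, y), hne⟩ := Subtype.ext e
    rw [this]; exact hω⟩
  loopless := ⟨fun x hx => hx.1 (Sym2.mk_isDiag_iff.2 rfl)⟩

/-- The cluster of the vertex `o`. -/
def cluster {V : Type*} (ω : Pair V → ℕ) (o : V) : Set V := {y | (openGraph ω).Reachable o y}

/-- The graph has an infinite connected component. -/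
def HasInfiniteComponent {V : Type*} (G : SimpleGraph V) : Prop :=
  ∃ C : G.ConnectedComponent, C.supp.Infinite

/-- The total weight of the pairs with exactly one element in the finite set `S`. -/
noncomputable def wBoundary {V : Type*} (w : Sym2 V → ℝ≥0) (S : Finset V) : ℝ≥0∞ :=
  ∑ x ∈ S, ∑' y : {y : V // y ∉ S}, (w s(x, (y : V)) : ℝ≥0∞)

/-- A generating measure on the group `Γ`: a probability measure on `Γ` (given by its mass
function) which is symmetric and whose support generates `Γ` as a group. -/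
structure GeneratingMeasure (Γ : Type*) [Group Γ] where
  /-- the probability mass function -/
  mass : PMF Γ
  /-- symmetry -/
  symm : ∀ g : Γ, mass g = mass g⁻¹
  /-- the support generates the group -/
  gen : Subgroup.closure mass.support = ⊤

/-- The weight `μ (g⁻¹ h)` of the pair `{g, h}`. -/
noncomputable def weight {Γ : Type*} [Group Γ] (μ : GeneratingMeasure Γ) : Sym2 Γ → ℝ≥0 :=
  Sym2.lift ⟨fun g h => (μ.mass (g⁻¹ * h)).toNNReal, fun g h => by
    show (μ.mass (g⁻¹ * h)).toNNReal = (μ.mass (h⁻¹ * g)).toNNReal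
    rw [μ.symm (g⁻¹ * h), mul_inv_rev, inv_inv]⟩

/-- The critical parameter `λ_c(μ)`: the supremum in `[0, ∞]` of the `t > 0` for which `Γ_μ(t)`
has an infinite connected component with probability zero. -/
noncomputable def criticalParameter {Γ : Type*} [Group Γ] (μ : GeneratingMeasure Γ) : ℝ≥0∞ :=
  sSup {s : ℝ≥0∞ | ∃ t : ℝ≥0, 0 < t ∧
    law (weight μ) t {ω | HasInfiniteComponent (openGraph ω)} = 0 ∧ s = (t : ℝ≥0∞)}

/-- The boundary `|∂S| = ∑_{g ∈ S, h ∉ S} μ (g⁻¹ h)` of a finite set. -/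
noncomputable def boundary {Γ : Type*} [Group Γ] (μ : GeneratingMeasure Γ) (S : Finset Γ) :
    ℝ≥0∞ :=
  ∑ g ∈ S, ∑' h : {h : Γ // h ∉ S}, μ.mass (g⁻¹ * (h : Γ))

/-- The isoperimetric dimension of `μ`: the supremum in `[0, ∞]` of the real `d > 0` for which the
infimum of `|∂S| / |S| ^ ((d - 1) / d)` over the finite nonempty sets `S` is positive. -/
noncomputable def dim {Γ : Type*} [Group Γ] (μ : GeneratingMeasure Γ) : ℝ≥0∞ :=
  sSup {s : ℝ≥0∞ | ∃ d : ℝ, 0 < d ∧
    0 < (⨅ (S : Finset Γ) (_ : S.Nonempty),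
      boundary μ S / ENNReal.ofReal ((S.card : ℝ) ^ ((d - 1) / d))) ∧
    s = ENNReal.ofReal d}

/-! ### Proofs -/

open Pool.Agent.TH994.LR

theorem outW_eq' {V : Type*} [DecidableEq V] (w : Sym2 V → ℝ≥0) (S : Finset V) :
    outW w S = wBoundary w S := by
  unfold outW wBoundary
  refine Finset.sum_congr rfl fun x _ => ?_
  have e := tsum_subtype {y | y ∉ S} (fun y => (w s(x, y) : ℝ≥0∞))
  rw [show (∑' y : {y : V // y ∉ S}, (w s(x, (y : V)) : ℝ≥0∞)) =
    ∑' y : ({y | y ∉ S} : Set V), (w s(x, (y : V)) : ℝ≥0∞) from rfl, e]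
  refine tsum_congr fun y => ?_
  by_cases hy : y ∈ S <;> simp [hy]

/-- general weighted graphs -/
theorem general {V : Type*} [Countable V] (w : Sym2 V → ℝ≥0)
    (hfin : ∀ x, ∑' y, (w s(x, y) : ℝ≥0∞) ≠ ⊤) (ψ : ℕ → ℝ) (h0 : ∀ r, 0 < ψ r)
    (hm : ∀ r, ψ 0 ≤ ψ r) (hs : Summable fun r => Real.log (1 + ψ r) / ψ r)
    (hiso : ∀ (r : ℕ) (S : Finset V), S.Nonempty → 2 ^ r ≤ S.card →
      ENNReal.ofReal (ψ r) ≤ wBoundary w S) :
    ∃ t0 : ℝ≥0, ∀ t : ℝ≥0, t0 ≤ t → ∀ o : V, 0 < law w t {ω | (cluster ω o).Infinite} := by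
  classical
  have hl0 : 0 < Real.log (1 + ψ 0) := Real.log_pos (by linarith [h0 0])
  have hl : ∀ r, Real.log (1 + ψ 0) ≤ Real.log (1 + ψ r) := fun r =>
    Real.log_le_log (by linarith [h0 0]) (by linarith [hm r])
  have hterm0 : ∀ r, 0 ≤ Real.log (1 + ψ r) / ψ r := fun r =>
    div_nonneg (hl0.le.trans (hl r)) (h0 r).le
  set S := ∑' r, Real.log (1 + ψ r) / ψ r with hSdef
  have hpart : ∀ k, ∑ j ∈ Finset.range k, Real.log (1 + ψ j) / ψ j ≤ S := fun k =>
    hs.sum_le_tsum _ fun j _ => hterm0 j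
  have hψ0 : ∀ r, 0 < ψ r / 2 := fun r => half_pos (h0 r)
  have hmono : ∀ r, ψ 0 / 2 ≤ ψ r / 2 := fun r => by linarith [hm r]
  have hψ : ∀ r (D : Finset V), D.Nonempty → 2 ^ r ≤ D.card →
      ENNReal.ofReal (2 * (ψ r / 2)) ≤ outW w D := by
    intro r D hD hcard
    rw [outW_eq', mul_div_cancel₀ _ two_ne_zero]
    exact hiso r D hD hcard
  have hS1 : ∀ k, ∑ j ∈ Finset.range k, (ψ j / 2)⁻¹ ≤ 2 / Real.log (1 + ψ 0) * S := by
    intro k
    refine le_trans ?_ (mul_le_mul_of_nonneg_left (hpart k) (by positivity))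
    rw [Finset.mul_sum]
    refine Finset.sum_le_sum fun j _ => ?_
    have h1 := h0 j
    rw [inv_div, div_mul_div_comm, div_le_div_iff₀ h1 (by positivity)]
    have := hl j
    nlinarith [mul_le_mul_of_nonneg_right this h1.le]
  have hS3 : ∀ k, ∑ j ∈ Finset.range k, Real.log (1 + ψ j / 2) / (ψ j / 2) ≤ 2 * S := by
    intro k
    refine le_trans ?_ (mul_le_mul_of_nonneg_left (hpart k) (by positivity))
    rw [Finset.mul_sum]
    refine Finset.sum_le_sum fun j _ => ?_
    have h1 := h0 j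
    have h2 : Real.log (1 + ψ j / 2) ≤ Real.log (1 + ψ j) :=
      Real.log_le_log (by linarith) (by linarith)
    rw [div_div_eq_mul_div, ← mul_div_assoc, mul_comm 2 (Real.log (1 + ψ j))]
    exact div_le_div_of_nonneg_right (by linarith) h1.le
  obtain ⟨t0, ht0⟩ := exists_threshold (wt := w) hfin hψ0 hmono hψ hS1 hS3
    (G := openGraph) (fun _ _ _ => Iff.rfl)
  refine ⟨t0.toNNReal, fun t ht o => ?_⟩
  have ht' : t0 ≤ (t : ℝ) := by
    have h1 : ((t0.toNNReal : ℝ≥0) : ℝ) ≤ t := by exact_mod_cast ht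
    exact (Real.le_coe_toNNReal t0).trans h1
  refine pos_iff_ne_zero.2 (ht0 (t : ℝ) ht' (fun e => poissonMeasure (t * w e))
    (fun e => inferInstance) (fun e => ?_) o)
  rw [poissonMeasure_singleton]
  simp

theorem coe_weight {Γ : Type*} [Group Γ] (μ : GeneratingMeasure Γ) (x y : Γ) :
    (weight μ s(x, y) : ℝ≥0∞) = μ.mass (x⁻¹ * y) :=
  ENNReal.coe_toNNReal (PMF.apply_ne_top _ _)

theorem boundary_eq {Γ : Type*} [Group Γ] (μ : GeneratingMeasure Γ) (S : Finset Γ) :
    wBoundary (weight μ) S = boundary μ S := by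
  unfold wBoundary boundary
  exact Finset.sum_congr rfl fun x _ => tsum_congr fun y => coe_weight μ x y

theorem tsum_weight {Γ : Type*} [Group Γ] (μ : GeneratingMeasure Γ) (x : Γ) :
    ∑' y, (weight μ s(x, y) : ℝ≥0∞) ≠ ⊤ := by
  have : ∑' y, (weight μ s(x, y) : ℝ≥0∞) = 1 := by
    simp only [coe_weight]
    exact ((Equiv.mulLeft x⁻¹).tsum_eq (fun y => μ.mass y)).trans μ.mass.tsum_coe
  rw [this]; exact ENNReal.one_ne_top

theorem critical_of {Γ : Type*} [Group Γ] [Countable Γ] (μ : GeneratingMeasure Γ) (ψ : ℕ → ℝ)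
    (h0 : ∀ r, 0 < ψ r) (hm : ∀ r, ψ 0 ≤ ψ r) (hs : Summable fun r => Real.log (1 + ψ r) / ψ r)
    (hiso : ∀ (r : ℕ) (S : Finset Γ), S.Nonempty → 2 ^ r ≤ S.card →
      ENNReal.ofReal (ψ r) ≤ boundary μ S) : criticalParameter μ < ⊤ := by
  obtain ⟨t0, ht0⟩ := general (weight μ) (tsum_weight μ) ψ h0 hm hs
    (fun r S hS hr => by rw [boundary_eq]; exact hiso r S hS hr)
  refine lt_of_le_of_lt (b := (t0 : ℝ≥0∞)) ?_ ENNReal.coe_lt_top
  apply sSup_le
  rintro s ⟨t, _, hz, rfl⟩
  by_contra hcon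
  have ht : t0 ≤ t := by
    rw [ENNReal.coe_le_coe] at hcon
    exact (not_le.1 hcon).le
  refine (ht0 t ht 1).ne' (measure_mono_null ?_ hz)
  intro ω hω
  refine ⟨(openGraph ω).connectedComponentMk 1, ?_⟩
  refine Set.Infinite.mono ?_ hω
  intro y hy
  rw [SimpleGraph.ConnectedComponent.mem_supp_iff]
  exact (SimpleGraph.ConnectedComponent.eq.2 hy).symm

/-! #### the series -/

/-- `1 + r / 2` -/
noncomputable def yy (r : ℕ) : ℝ := 1 + (r : ℝ) / 2

/-- `1 + log (1 + r / 2)` -/
noncomputable def BB (r : ℕ) : ℝ := 1 + Real.log (yy r)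

theorem yy_ge (r : ℕ) : 1 ≤ yy r := by
  unfold yy
  have : (0 : ℝ) ≤ (r : ℝ) / 2 := by positivity
  linarith

theorem BB_ge (r : ℕ) : 1 ≤ BB r := by
  unfold BB
  have := Real.log_nonneg (yy_ge r)
  linarith

theorem BB_le_yy (r : ℕ) : BB r ≤ yy r := by
  unfold BB
  have := Real.log_le_sub_one_of_pos (lt_of_lt_of_le one_pos (yy_ge r))
  linarith

/-- the terms of the comparison series -/
noncomputable def TT (ε : ℝ) (r : ℕ) : ℝ := (yy r * BB r ^ (1 + ε))⁻¹

theorem TT_step {ε : ℝ} (hε : 0 < ε) (r : ℕ) :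
    TT ε (r + 1) ≤ 2 / ε * (BB r ^ (-ε) - BB (r + 1) ^ (-ε)) := by
  have hy0 : 0 < yy r := lt_of_lt_of_le one_pos (yy_ge r)
  have hy1 : 0 < yy (r + 1) := lt_of_lt_of_le one_pos (yy_ge _)
  have hB0 : 0 < BB r := lt_of_lt_of_le one_pos (BB_ge r)
  have hB1 : 0 < BB (r + 1) := lt_of_lt_of_le one_pos (BB_ge _)
  have hyd : yy (r + 1) - yy r = 1 / 2 := by unfold yy; push_cast; ring
  -- difference of the logarithms
  have h1 : 1 / (2 * yy (r + 1)) ≤ BB (r + 1) - BB r := by
    have h2 : BB (r + 1) - BB r = -Real.log (yy r / yy (r + 1)) := by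
      unfold BB
      rw [Real.log_div hy0.ne' hy1.ne']; ring
    have h3 := Real.log_le_sub_one_of_pos (div_pos hy0 hy1)
    have h4 : yy r / yy (r + 1) - 1 = -(1 / (2 * yy (r + 1))) := by
      field_simp
      linarith
    rw [h2]
    linarith
  -- convexity
  have h5 : BB (r + 1) ^ (-ε) * (1 + ε * ((BB (r + 1) - BB r) / BB (r + 1))) ≤ BB r ^ (-ε) := by
    have h6 : BB r ^ (-ε) = BB (r + 1) ^ (-ε) * (BB r / BB (r + 1)) ^ (-ε) := by
      rw [← Real.mul_rpow hB1.le (by positivity), mul_div_cancel₀ _ hB1.ne']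
    rw [h6]
    apply mul_le_mul_of_nonneg_left _ (Real.rpow_nonneg hB1.le _)
    have h7 : (BB r / BB (r + 1)) ^ (-ε) = Real.exp (-ε * Real.log (BB r / BB (r + 1))) := by
      rw [Real.rpow_def_of_pos (by positivity), mul_comm]
    rw [h7]
    have h8 := Real.log_le_sub_one_of_pos (div_pos hB0 hB1)
    have h9 := Real.add_one_le_exp (-ε * Real.log (BB r / BB (r + 1)))
    have h10 : BB r / BB (r + 1) - 1 = -((BB (r + 1) - BB r) / BB (r + 1)) := by
      field_simp
      ring
    rw [h10] at h8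
    nlinarith
  have h11 : BB (r + 1) ^ (-ε) * (ε * ((BB (r + 1) - BB r) / BB (r + 1))) ≤
      BB r ^ (-ε) - BB (r + 1) ^ (-ε) := by
    have : BB (r + 1) ^ (-ε) * (1 + ε * ((BB (r + 1) - BB r) / BB (r + 1))) =
      BB (r + 1) ^ (-ε) + BB (r + 1) ^ (-ε) * (ε * ((BB (r + 1) - BB r) / BB (r + 1))) := by ring
    rw [this] at h5
    linarith
  have h12 : TT ε (r + 1) = 2 / ε * (BB (r + 1) ^ (-ε) *
      (ε * ((1 / (2 * yy (r + 1))) / BB (r + 1)))) := by
    unfold TT
    rw [Real.rpow_add hB1, Real.rpow_one, Real.rpow_neg hB1.le]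
    have h13 : 0 < BB (r + 1) ^ ε := Real.rpow_pos_of_pos hB1 _
    field_simp
  rw [h12]
  apply mul_le_mul_of_nonneg_left _ (by positivity)
  refine le_trans ?_ h11
  apply mul_le_mul_of_nonneg_left _ (Real.rpow_nonneg hB1.le _)
  apply mul_le_mul_of_nonneg_left _ hε.le
  exact div_le_div_of_nonneg_right h1 hB1.le

theorem TT_nonneg (ε : ℝ) (r : ℕ) : 0 ≤ TT ε r := by
  have hy := lt_of_lt_of_le one_pos (yy_ge r)
  have hB := lt_of_lt_of_le one_pos (BB_ge r)
  have := Real.rpow_pos_of_pos hB (1 + ε)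
  unfold TT
  positivity

theorem TT_sum {ε : ℝ} (hε : 0 < ε) (k : ℕ) :
    ∑ r ∈ Finset.range (k + 1), TT ε r ≤ 1 + 2 / ε * (1 - BB k ^ (-ε)) := by
  induction k with
  | zero =>
    have h1 : BB 0 = 1 := by simp [BB, yy]
    have h2 : yy 0 = 1 := by simp [yy]
    simp [TT, h1, h2]
  | succ k ih =>
    rw [Finset.sum_range_succ]
    have := TT_step hε k
    have e : 1 + 2 / ε * (1 - BB (k + 1) ^ (-ε)) = (1 + 2 / ε * (1 - BB k ^ (-ε))) +
      2 / ε * (BB k ^ (-ε) - BB (k + 1) ^ (-ε)) := by ring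
    rw [e]
    linarith

theorem TT_summable {ε : ℝ} (hε : 0 < ε) : Summable (TT ε) := by
  refine summable_of_sum_range_le (c := 1 + 2 / ε) (TT_nonneg ε) fun k => ?_
  have h1 : ∑ r ∈ Finset.range k, TT ε r ≤ ∑ r ∈ Finset.range (k + 1), TT ε r :=
    Finset.sum_le_sum_of_subset_of_nonneg (Finset.range_mono (Nat.le_succ k))
      fun r _ _ => TT_nonneg ε r
  have h2 := TT_sum hε k
  have h3 : 0 ≤ BB k ^ (-ε) := Real.rpow_nonneg (zero_le_one.trans (BB_ge k)) _
  have h4 : 0 < 2 / ε := by positivity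
  nlinarith

/-- the function `ψ` -/
theorem psi_summable {c ε : ℝ} (hc : 0 < c) (hε : 0 < ε) :
    Summable fun r : ℕ => Real.log (1 + c * (yy r * BB r ^ (2 + ε))) /
      (c * (yy r * BB r ^ (2 + ε))) := by
  set C : ℝ := (Real.log (1 + c) + (3 + ε)) / c with hC
  refine Summable.of_nonneg_of_le (fun r => ?_) (fun r => ?_) ((TT_summable hε).mul_left C)
  · have hy := lt_of_lt_of_le one_pos (yy_ge r)
    have hB := Real.rpow_pos_of_pos (lt_of_lt_of_le one_pos (BB_ge r)) (2 + ε)
    exact div_nonneg (Real.log_nonneg (by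
      have : 0 ≤ c * (yy r * BB r ^ (2 + ε)) := by positivity
      linarith)) (by positivity)
  · have hy1 := yy_ge r
    have hy := lt_of_lt_of_le one_pos hy1
    have hB1 := BB_ge r
    have hB0 := lt_of_lt_of_le one_pos hB1
    have hB := Real.rpow_pos_of_pos hB0 (2 + ε)
    have hBp : 1 ≤ BB r ^ (2 + ε) := Real.one_le_rpow hB1 (by linarith)
    have hP1 : 1 ≤ yy r * BB r ^ (2 + ε) := by nlinarith
    have hP : 0 < yy r * BB r ^ (2 + ε) := by linarith
    have hlogc : 0 ≤ Real.log (1 + c) := Real.log_nonneg (by linarith)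
    have hlogy : 0 ≤ Real.log (yy r) := Real.log_nonneg hy1
    -- the logarithm
    have h1 : Real.log (1 + c * (yy r * BB r ^ (2 + ε))) ≤
        (Real.log (1 + c) + (3 + ε)) * BB r := by
      have h2 : 1 + c * (yy r * BB r ^ (2 + ε)) ≤ (1 + c) * (yy r * BB r ^ (2 + ε)) := by
        nlinarith
      have h3 := Real.log_le_log (by positivity) h2
      rw [Real.log_mul (by positivity) hP.ne', Real.log_mul hy.ne' hB.ne',
        Real.log_rpow hB0] at h3
      have h4 : Real.log (BB r) ≤ Real.log (yy r) := Real.log_le_log hB0 (BB_le_yy r)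
      have h5 : Real.log (yy r) = BB r - 1 := by unfold BB; ring
      have h6 : (2 + ε) * Real.log (BB r) ≤ (2 + ε) * Real.log (yy r) :=
        mul_le_mul_of_nonneg_left h4 (by linarith)
      have h7 : Real.log (1 + c) ≤ Real.log (1 + c) * BB r := le_mul_of_one_le_right hlogc hB1
      rw [h5] at h6 h3
      nlinarith
    calc Real.log (1 + c * (yy r * BB r ^ (2 + ε))) / (c * (yy r * BB r ^ (2 + ε)))
        ≤ ((Real.log (1 + c) + (3 + ε)) * BB r) / (c * (yy r * BB r ^ (2 + ε))) :=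
          div_le_div_of_nonneg_right h1 (by positivity)
      _ = C * TT ε r := by
          unfold TT
          have e : BB r ^ (2 + ε) = BB r * BB r ^ (1 + ε) := by
            rw [show (2 : ℝ) + ε = 1 + (1 + ε) by ring, Real.rpow_add hB0, Real.rpow_one]
          have h8 := Real.rpow_pos_of_pos hB0 (1 + ε)
          rw [e, hC]
          field_simp

/-- the isoperimetric inequality slightly above the logarithm suffices -/
theorem loglog {Γ : Type*} [Group Γ] [Countable Γ] (μ : GeneratingMeasure Γ) {c ε : ℝ}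
    (hc : 0 < c) (hε : 0 < ε)
    (h : ∀ S : Finset Γ, S.Nonempty → ENNReal.ofReal (c * ((1 + Real.log S.card) *
      (1 + Real.log (1 + Real.log S.card)) ^ (2 + ε))) ≤ boundary μ S) :
    criticalParameter μ < ⊤ := by
  have hpos : ∀ r, 0 < yy r * BB r ^ (2 + ε) := fun r =>
    mul_pos (lt_of_lt_of_le one_pos (yy_ge r))
      (Real.rpow_pos_of_pos (lt_of_lt_of_le one_pos (BB_ge r)) _)
  refine critical_of μ (fun r => c * (yy r * BB r ^ (2 + ε))) (fun r => mul_pos hc (hpos r))
    (fun r => ?_) (psi_summable hc hε) (fun r S hS hr => ?_)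
  · apply mul_le_mul_of_nonneg_left _ hc.le
    have h1 : BB 0 = 1 := by simp [BB, yy]
    have h2 : yy 0 = 1 := by simp [yy]
    rw [h1, h2, Real.one_rpow, mul_one]
    have := yy_ge r
    have := Real.one_le_rpow (BB_ge r) (by linarith : (0:ℝ) ≤ 2 + ε)
    nlinarith
  · refine le_trans (ENNReal.ofReal_le_ofReal ?_) (h S hS)
    apply mul_le_mul_of_nonneg_left _ hc.le
    -- `log |S| ≥ r / 2`
    have h1 : (r : ℝ) / 2 ≤ Real.log S.card := by
      have h2 : ((2 : ℝ) ^ r) ≤ S.card := by exact_mod_cast hr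
      have h3 := Real.log_le_log (by positivity) h2
      rw [Real.log_pow] at h3
      have h4 : (1 : ℝ) / 2 ≤ Real.log 2 := by
        have := Real.log_two_gt_d9
        linarith
      have h5 : (0 : ℝ) ≤ r := Nat.cast_nonneg r
      nlinarith
    have h6 : yy r ≤ 1 + Real.log S.card := by unfold yy; linarith
    have h7 : BB r ≤ 1 + Real.log (1 + Real.log S.card) := by
      unfold BB
      have := Real.log_le_log (lt_of_lt_of_le one_pos (yy_ge r)) h6
      linarith
    have h8 : BB r ^ (2 + ε) ≤ (1 + Real.log (1 + Real.log S.card)) ^ (2 + ε) :=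
      Real.rpow_le_rpow (zero_le_one.trans (BB_ge r)) h7 (by linarith)
    exact mul_le_mul h6 h8 (Real.rpow_nonneg (zero_le_one.trans (BB_ge r)) _)
      ((zero_le_one.trans (yy_ge r)).trans h6)

/-- isoperimetric dimension larger than one -/
theorem dim_gt_one {Γ : Type*} [Group Γ] [Countable Γ] (μ : GeneratingMeasure Γ)
    (h : 1 < dim μ) : criticalParameter μ < ⊤ := by
  obtain ⟨s, ⟨d, hd0, hinf, rfl⟩, hd1⟩ := lt_sSup_iff.1 h
  have hd : 1 < d := by
    rw [← ENNReal.ofReal_one] at hd1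
    exact (ENNReal.ofReal_lt_ofReal_iff hd0).1 hd1
  set ε : ℝ := (d - 1) / d with hε
  have hε0 : 0 < ε := div_pos (by linarith) hd0
  have hε1 : ε ≤ 1 := by rw [hε, div_le_one hd0]; linarith
  obtain ⟨c, hc0, hc⟩ : ∃ c : ℝ, 0 < c ∧ ENNReal.ofReal c ≤
      ⨅ (S : Finset Γ) (_ : S.Nonempty), boundary μ S / ENNReal.ofReal ((S.card : ℝ) ^ ε) := by
    obtain ⟨c, hc0, hc⟩ := ENNReal.lt_iff_exists_nnreal_btwn.1 hinf
    exact ⟨c, by exact_mod_cast hc0, by rw [ENNReal.ofReal_coe_nnreal]; exact hc.le⟩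
  have hS : ∀ S : Finset Γ, S.Nonempty →
      ENNReal.ofReal (c * (S.card : ℝ) ^ ε) ≤ boundary μ S := by
    intro S hS
    have h1 : ENNReal.ofReal c ≤ boundary μ S / ENNReal.ofReal ((S.card : ℝ) ^ ε) :=
      hc.trans (iInf₂_le S hS)
    have hpos : (0 : ℝ) < (S.card : ℝ) ^ ε :=
      Real.rpow_pos_of_pos (by exact_mod_cast Finset.card_pos.2 hS) _
    rw [ENNReal.ofReal_mul hc0.le]
    rwa [ENNReal.le_div_iff_mul_le (Or.inl (ENNReal.ofReal_pos.2 hpos).ne')
      (Or.inl ENNReal.ofReal_ne_top)] at h1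
  refine loglog μ (c := c * (ε / 4) ^ 4) (ε := 1) (by positivity) one_pos fun S hSne => ?_
  refine le_trans (ENNReal.ofReal_le_ofReal ?_) (hS S hSne)
  have hn : (1 : ℝ) ≤ S.card := by exact_mod_cast Finset.card_pos.2 hSne
  set L : ℝ := Real.log S.card with hL
  have hL0 : 0 ≤ L := Real.log_nonneg hn
  have h1 : (1 + Real.log (1 + L)) ≤ 1 + L := by
    have := Real.log_le_sub_one_of_pos (by linarith : (0 : ℝ) < 1 + L)
    linarith
  have h2 : 0 ≤ 1 + Real.log (1 + L) := by
    have := Real.log_nonneg (by linarith : (1 : ℝ) ≤ 1 + L)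
    linarith
  have h3 : (1 + Real.log (1 + L)) ^ ((2 : ℝ) + 1) ≤ (1 + L) ^ 3 := by
    have e : (2 : ℝ) + 1 = ((3 : ℕ) : ℝ) := by norm_num
    rw [e, Real.rpow_natCast]
    exact pow_le_pow_left₀ h2 h1 3
  have h4 : (ε / 4) * (1 + L) ≤ Real.exp (ε / 4 * L) := by
    have := Real.add_one_le_exp (ε / 4 * L)
    nlinarith
  have h5 : ((ε / 4) * (1 + L)) ^ 4 ≤ (S.card : ℝ) ^ ε := by
    have e : (S.card : ℝ) ^ ε = (Real.exp (ε / 4 * L)) ^ 4 := by
      rw [Real.rpow_def_of_pos (by linarith), ← Real.exp_nat_mul]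
      congr 1
      push_cast
      rw [← hL]; ring
    rw [e]
    exact pow_le_pow_left₀ (by positivity) h4 4
  calc c * (ε / 4) ^ 4 * ((1 + L) * (1 + Real.log (1 + L)) ^ ((2 : ℝ) + 1))
      ≤ c * (ε / 4) ^ 4 * ((1 + L) * (1 + L) ^ 3) := by
        apply mul_le_mul_of_nonneg_left _ (by positivity)
        exact mul_le_mul_of_nonneg_left h3 (by linarith)
    _ = c * ((ε / 4) * (1 + L)) ^ 4 := by ring
    _ ≤ c * (S.card : ℝ) ^ ε := mul_le_mul_of_nonneg_left h5 hc0.le

/-- **Percolation under isoperimetric inequalities slightly above logarithmic.**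
1. Let `w` be weights on the pairs of a countable set `V` with finite sum at every vertex, and let
   `ψ 0 ≤ ψ r` be positive numbers with `∑ log (1 + ψ r) / ψ r < ∞`. If every finite nonempty set
   with at least `2 ^ r` elements has boundary at least `ψ r`, then for all large intensities every
   vertex is in an infinite cluster with positive probability.
2. If a generating measure on a countable group satisfies
   `|∂S| ≥ c (1 + log |S|) (1 + log (1 + log |S|)) ^ (2 + ε)` for all finite nonempty sets `S`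
   (`c, ε > 0` fixed), then its critical parameter is finite.
3. (Q1) Every generating measure of isoperimetric dimension larger than one has a finite critical
   parameter. -/
theorem result :
    (∀ (V : Type) [Countable V] (w : Sym2 V → ℝ≥0), (∀ x, ∑' y, (w s(x, y) : ℝ≥0∞) ≠ ⊤) →
      ∀ ψ : ℕ → ℝ, (∀ r, 0 < ψ r) → (∀ r, ψ 0 ≤ ψ r) →
      (Summable fun r => Real.log (1 + ψ r) / ψ r) →
      (∀ (r : ℕ) (S : Finset V), S.Nonempty → 2 ^ r ≤ S.card →
        ENNReal.ofReal (ψ r) ≤ wBoundary w S) →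
      ∃ t0 : ℝ≥0, ∀ t : ℝ≥0, t0 ≤ t → ∀ o : V, 0 < law w t {ω | (cluster ω o).Infinite}) ∧
    (∀ (Γ : Type) [Group Γ] [Countable Γ] (μ : GeneratingMeasure Γ) (c ε : ℝ), 0 < c → 0 < ε →
      (∀ S : Finset Γ, S.Nonempty → ENNReal.ofReal (c * ((1 + Real.log S.card) *
        (1 + Real.log (1 + Real.log S.card)) ^ (2 + ε))) ≤ boundary μ S) →
      criticalParameter μ < ⊤) ∧
    (∀ (Γ : Type) [Group Γ] [Countable Γ] (μ : GeneratingMeasure Γ), 1 < dim μ →
      criticalParameter μ < ⊤) :=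
  ⟨fun _ _ w hfin ψ h0 hm hs hiso => general w hfin ψ h0 hm hs hiso,
    fun _ _ _ μ _ _ hc hε h => loglog μ hc hε h, fun _ _ _ μ h => dim_gt_one μ h⟩

end Pool.Agent.Results.MP_7c03a7_pr.LogLogIsoperimetry
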